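import Pool.Agent.Helper87.Irr.GoalsT

/-!
Auxiliary lemmas for stars (packet TStar of MP_033e98_co).
-/

set_option autoImplicit false

namespace Pool.Agent.Helper54.Irr
open Irr37 Irr87

/-- the run above the centre -/
def tops (n : ℕ) : List ℕ := if n = 0 then [] else [n]

lemma tops_zero : tops 0 = [] := rfl
lemma tops_pos {n : ℕ} (h : 1 ≤ n) : tops n = [n] := by
  unfold tops; rw [if_neg (by omega)]
lemma tops_sum (n : ℕ) : (tops n).sum = n := by
  unfold tops; split <;> simp_all
lemma tops_length (n : ℕ) : (tops n).length = if n = 0 then 0 else 1 := by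
  unfold tops; split <;> simp

lemma mem_tops {n m : ℕ} (h : m ∈ tops n) : 1 ≤ m := by
  unfold tops at h
  split at h
  · simp at h
  · simp at h; omega

lemma legsF_append (a b : List (ℕ × ℕ)) : legsF (a ++ b) = app (legsF a) (legsF b) := by
  induction a with
  | nil => rfl
  | cons e a ih => rw [List.cons_append, legsF_cons, legsF_cons, ih, app_assoc]

lemma runs_append {p : ℕ} {a b : List (ℕ × ℕ)} {Dss : List (List ℕ)} {hs : List ℕ}
    (h : Runs p (a ++ b) Dss hs) : ∃ D1 D2 h1 h2, Dss = D1 ++ D2 ∧ hs = h1 ++ h2 ∧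
      Runs p a D1 h1 ∧ Runs p b D2 h2 := by
  induction a generalizing Dss hs with
  | nil => exact ⟨[], Dss, [], hs, rfl, rfl, trivial, h⟩
  | cons e a ih =>
    obtain ⟨n, S⟩ := e
    cases Dss with
    | nil => cases hs <;> simp [Runs] at h
    | cons Ds Dss =>
      cases hs with
      | nil => simp [Runs] at h
      | cons k hs =>
        obtain ⟨h1, h2, h3, h4⟩ := h
        obtain ⟨D1, D2, k1, k2, e1, e2, h5, h6⟩ := ih h4
        exact ⟨Ds :: D1, D2, k :: k1, k2, by rw [e1]; rfl, by rw [e2]; rfl, 
          ⟨h1, h2, h3, h5⟩, h6⟩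

lemma chs_lt {p S h : ℕ} {Ds : List ℕ} (hc : ChS p S Ds h) : ∀ D ∈ Ds, D < p := by
  obtain ⟨D, l, rfl, -, -, h3, h4⟩ := hc
  intro D' hD'
  rcases List.mem_cons.1 hD' with rfl | hD'
  · exact h3
  · exact h4.le D' hD'

lemma runs_lt {p : ℕ} {a : List (ℕ × ℕ)} {Dss : List (List ℕ)} {hs : List ℕ}
    (h : Runs p a Dss hs) : ∀ D ∈ Dss.flatten, D < p := by
  induction a generalizing Dss hs with
  | nil =>
    cases Dss with
    | nil => simp
    | cons _ _ => cases hs <;> simp [Runs] at h
  | cons e a ih =>
    obtain ⟨n, S⟩ := e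
    cases Dss with
    | nil => cases hs <;> simp [Runs] at h
    | cons Ds Dss =>
      cases hs with
      | nil => simp [Runs] at h
      | cons k hs =>
        obtain ⟨h1, h2, h3, h4⟩ := h
        intro D hD
        rw [List.flatten_cons, List.mem_append] at hD
        rcases hD with hD | hD
        · exact chs_lt h2 D hD
        · exact ih h4 D hD

lemma runs_hs {p : ℕ} {a : List (ℕ × ℕ)} {Dss : List (List ℕ)} {hs : List ℕ}
    (h : Runs p a Dss hs) : hs.sum ≤ p * a.length := by
  induction a generalizing Dss hs with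
  | nil =>
    cases Dss with
    | nil => cases hs <;> simp [Runs] at h ⊢
    | cons _ _ => cases hs <;> simp [Runs] at h
  | cons e a ih =>
    obtain ⟨n, S⟩ := e
    cases Dss with
    | nil => cases hs <;> simp [Runs] at h
    | cons Ds Dss =>
      cases hs with
      | nil => simp [Runs] at h
      | cons k hs =>
        obtain ⟨h1, h2, h3, h4⟩ := h
        have := ih h4
        rw [List.sum_cons, List.length_cons, Nat.mul_add, Nat.mul_one]
        omega

/-- included legs -/
lemma inc_PS {p : ℕ} {inc : List (ℕ × Multiset ℕ)} {Dss : List (List ℕ)} {hs : List ℕ}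
    (h : Runs p (inc.map (fun e => (e.1 + 1, e.2.sum))) Dss hs) :
    ∃ x, PS p (legsF (inc.map (fun e => (e.1, Multiset.card e.2)))) x (wts p Dss.flatten)
      (inc.map Prod.snd).sum RF.nil ∧ x + hs.sum = p * inc.length := by
  induction inc generalizing Dss hs with
  | nil =>
    cases Dss with
    | nil =>
      cases hs with
      | nil => exact ⟨0, by simpa [wts] using PS.nil, by simp⟩
      | cons _ _ => simp [Runs] at h
    | cons _ _ => cases hs <;> simp [Runs] at h
  | cons e inc ih =>
    cases Dss with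
    | nil => cases hs <;> simp [Runs] at h
    | cons Ds Dss =>
      cases hs with
      | nil => simp [Runs] at h
      | cons k hs =>
        rw [List.map_cons] at h
        obtain ⟨h1, h2, h3, h4⟩ := h
        obtain ⟨x, hx, hx'⟩ := ih h4
        have h5 := (PS.inclLeg h1 h2).app hx
        refine ⟨p - k + x, ?_, ?_⟩
        · rw [List.map_cons, legsF_cons, List.flatten_cons, wts_append, List.map_cons, List.sum_cons]
          simpa using h5
        · simp only [List.sum_cons, List.length_cons]
          rw [Nat.mul_add, Nat.mul_one]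
          omega

/-- splitting a multiset -/
lemma msplit (F : Multiset ℕ) (a b : ℕ) (h : Multiset.card F = a + b) :
    ∃ A B : Multiset ℕ, A + B = F ∧ Multiset.card A = a ∧ Multiset.card B = b := by
  induction F using Quot.inductionOn with
  | h l =>
    have hl : l.length = a + b := by simpa using h
    refine ⟨(l.take a : List ℕ), (l.drop a : List ℕ), ?_, ?_, ?_⟩
    · rw [Multiset.coe_add, List.take_append_drop]; rfl
    · rw [Multiset.coe_card, List.length_take]; omega
    · rw [Multiset.coe_card, List.length_drop]; omega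

lemma wts_nodup {p : ℕ} {l : List ℕ} (h : l.Nodup) (hl : ∀ D ∈ l, D < p) : (wts p l).Nodup := by
  unfold wts
  rw [Multiset.coe_nodup]
  refine List.Nodup.map_on ?_ h
  intro a ha b hb hab
  have h1 := hl a ha
  have h2 := hl b hb
  omega

lemma In.mono {p z : ℕ} {V V' : Finset ℕ} (h : In p V z) (hV : V ⊆ V') : In p V' z := by
  intro y hy
  exact (h y hy).trans (Finset.card_le_card (Finset.filter_subset_filter _ hV))

lemma In.zero (p : ℕ) (V : Finset ℕ) : In p V 0 := by
  intro y hy
  have : y = 0 := by omega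
  subst this
  exact Nat.zero_le _

/-- splitting off the run above the centre -/
lemma top_split {p z n₀ : ℕ} {ns : List ℕ} {Dss : List (List ℕ)} {hs : List ℕ}
    (h : Runs p (opn p (tops n₀ ++ ns)) Dss hs) (hz : z < p) (hz' : z = 0 ∨ n₀ = 0) :
    ∃ (Ds : List ℕ) (h0 : ℕ) (Dss' : List (List ℕ)) (hs' : List ℕ), Ds.length = n₀ ∧
      Chain p z Ds h0 ∧ h0 < p ∧ Runs p (opn p ns) Dss' hs' ∧
      Dss.flatten = Ds ++ Dss'.flatten ∧ hs.sum = (if n₀ = 0 then 0 else h0) + hs'.sum ∧
      (n₀ = 0 → h0 = z) := by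
  by_cases hn : n₀ = 0
  · subst hn
    exact ⟨[], z, Dss, hs, rfl, rfl, hz, h, rfl, by simp, fun _ => rfl⟩
  · have hz0 : z = 0 := by tauto
    subst hz0
    rw [tops_pos (by omega)] at h
    cases Dss with
    | nil => cases hs <;> simp [Runs, opn] at h
    | cons Ds Dss =>
      cases hs with
      | nil => simp [Runs, opn] at h
      | cons k hs =>
        obtain ⟨h1, h2, h3, h4⟩ := h
        exact ⟨Ds, k, Dss, hs, h1, ChS_self h2, h3, h4, rfl, by rw [if_neg hn]; rfl, 
          fun h => absurd h hn⟩

/-- the final assembly -/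
lemma assemble {p : ℕ} (hp : 1 ≤ p) {z : ℕ} {top : Bool} {n₀ : ℕ} {A : Multiset ℕ}
    {inc : List (ℕ × Multiset ℕ)} {exc lo : List (ℕ × ℕ)} {g : RF} {V : Finset ℕ}
    {We Le : Multiset ℕ} (hexc : PS p (legsF exc) (p * exc.length) We Le RF.nil) 
    (hWe : We.Nodup) (hWe' : ∀ u ∈ We, p < u ∧ u ∉ V) (hz : AdmZ p z top n₀)
    (htop : top = false → n₀ = 0) 
    (hstar : Star p (V ∪ We.toFinset) (A.sum + p * g.width + p * exc.length + 
      (if top = true ∧ n₀ = 0 then p - z else 0)) 
      (inc.map (fun e => (e.1 + 1, e.2.sum)) ++ opn p (tops n₀ ++ lo.map Prod.fst))) :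
    ∃ (x : ℕ) (W : Multiset ℕ) (Ds : List ℕ) (h w : ℕ),
      PS p (app (legsF (inc.map (fun e => (e.1, Multiset.card e.2)) ++ exc ++ lo)) g) x W 
        ((inc.map Prod.snd).sum + Le) (app (botsF lo) g) ∧ Ds.length = n₀ ∧ 
      Chain p z Ds h ∧ h < p ∧ w = A.sum + x + (if top then p - h else 0) ∧
      (w ::ₘ (W + wts p Ds)).Nodup ∧ ∀ u ∈ w ::ₘ (W + wts p Ds), p < u ∧ u ∉ V := by
  obtain ⟨Dss, hs, w, hruns, hnd, hD, hw, hpw, hwV⟩ := hstar
  obtain ⟨D1, D2, k1, k2, rfl, rfl, hr1, hr2⟩ := runs_append hruns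
  obtain ⟨Ds, h0, Dss', hs', e1, e2, e3, e4, e5, e6, e7⟩ := 
    top_split (z := z) hr2 hz.1 (by rcases hz.2 with h | h; exact Or.inl h; exact Or.inr h.2)
  obtain ⟨x1, p1, q1⟩ := inc_PS hr1
  obtain ⟨x3, p3, q3⟩ := PS.legsF hp e4
  have pg := PS.cutAll p g
  have hps := ((p1.app hexc).app p3).app pg
  have hlt := runs_lt hruns
  refine ⟨x1 + p * exc.length + x3 + p * g.width, wts p D1.flatten + We + wts p Dss'.flatten + 0, 
    Ds, h0, w, ?_, e1, e2, e3, ?_, ?_, ?_⟩
  · rw [legsF_append, legsF_append]
    simpa using hps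
  · have hlen : (List.map (fun e : ℕ × Multiset ℕ => (e.1 + 1, e.2.sum)) inc ++ 
        opn p (tops n₀ ++ List.map Prod.fst lo)).length = inc.length + 
          ((if n₀ = 0 then 0 else 1) + lo.length) := by
      simp [opn, tops_length]
    rw [hlen, List.sum_append] at hw
    have hkey : p * (inc.length + ((if n₀ = 0 then 0 else 1) + lo.length)) = 
        p * inc.length + (p * (if n₀ = 0 then 0 else 1) + p * lo.length) := by ring
    rw [hkey] at hw
    cases top with
    | false =>
      have hn := htop rfl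
      subst hn
      simp at hw e6 ⊢
      omega
    | true =>
      by_cases hn : n₀ = 0
      · subst hn
        have := e7 rfl
        subst this
        simp at hw e6 ⊢
        omega
      · simp [hn] at hw e6 ⊢
        omega
  · have hfl : (D1 ++ D2).flatten = D1.flatten ++ (Ds ++ Dss'.flatten) := by
      rw [List.flatten_append, e5]
    rw [hfl] at hnd hD hlt
    have e : wts p D1.flatten + We + wts p Dss'.flatten + 0 + wts p Ds = 
        We + wts p (D1.flatten ++ (Ds ++ Dss'.flatten)) := by
      rw [wts_append, wts_append]; abel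
    rw [e, Multiset.nodup_cons]
    refine ⟨?_, ?_⟩
    · rw [Multiset.mem_add, mem_wts]
      rintro (h | ⟨D, hDm, hDe⟩)
      · exact hwV (Finset.mem_union_right _ (Multiset.mem_toFinset.2 h))
      · exact (hD D hDm).2 hDe
    · rw [Multiset.nodup_add]
      refine ⟨hWe, wts_nodup hnd hlt, ?_⟩
      rw [Multiset.disjoint_left]
      intro a ha hb
      obtain ⟨D, hDm, rfl⟩ := mem_wts.1 hb
      exact (hD D hDm).1 (Finset.mem_union_right _ (Multiset.mem_toFinset.2 ha))
  · have hfl : (D1 ++ D2).flatten = D1.flatten ++ (Ds ++ Dss'.flatten) := by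
      rw [List.flatten_append, e5]
    rw [hfl] at hnd hD hlt
    have e : wts p D1.flatten + We + wts p Dss'.flatten + 0 + wts p Ds = 
        We + wts p (D1.flatten ++ (Ds ++ Dss'.flatten)) := by
      rw [wts_append, wts_append]; abel
    rw [e]
    intro u hu
    rw [Multiset.mem_cons, Multiset.mem_add] at hu
    rcases hu with rfl | hu | hu
    · exact ⟨hpw, fun h => hwV (Finset.mem_union_left _ h)⟩
    · exact hWe' u hu
    · obtain ⟨D, hDm, rfl⟩ := mem_wts.1 hu
      have := hlt D hDm
      exact ⟨by omega, fun h => (hD D hDm).1 (Finset.mem_union_left _ h)⟩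

/-- an excluded leg -/
lemma excl (hRE : RE) {p r K : ℕ} {V : Finset ℕ} {X : Multiset ℕ} (hr : 1 ≤ r)
    (hK : 2 * p ≤ X.sum + K) (hc : V.card + 1 + r + K ≤ p + 1) :
    ∃ We : Multiset ℕ, PS p (zrun r (bot (Multiset.card X))) p We X RF.nil ∧ We.Nodup ∧ 
      (∀ u ∈ We, p < u ∧ u ∉ V) ∧ Multiset.card We = r + 1 := by
  obtain ⟨Dss, hs, w, hruns, hnd, hD, hw, hpw, hwV⟩ := 
    hRE p r K 0 X.sum V hr (In.zero p V) (by omega) hc
  cases Dss with
  | nil => cases hs <;> simp [Runs] at hruns
  | cons Ds Dss =>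
    cases hs with
    | nil => simp [Runs] at hruns
    | cons k hs =>
      obtain ⟨h1, h2, h3, h4⟩ := hruns
      cases Dss with
      | cons _ _ => cases hs <;> simp [Runs] at h4
      | nil =>
        cases hs with
        | cons _ _ => simp [Runs] at h4
        | nil =>
          have h5 := PS.exclLeg (X := X) h3 h2
          rw [h1] at h5
          have hw2 : w = X.sum + (p - k) := by
            simp at hw; omega
          rw [← hw2] at h5
          have hDs : ∀ D ∈ Ds, D < p := chs_lt h2
          simp only [List.flatten_cons, List.flatten_nil, List.append_nil] at hnd hD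
          refine ⟨w ::ₘ wts p Ds, h5, ?_, ?_, ?_⟩
          · rw [Multiset.nodup_cons]
            refine ⟨?_, wts_nodup hnd hDs⟩
            rw [mem_wts]
            rintro ⟨D, hDm, hDe⟩
            exact (hD D hDm).2 hDe
          · intro u hu
            rw [Multiset.mem_cons] at hu
            rcases hu with rfl | hu
            · exact ⟨hpw, hwV⟩
            · obtain ⟨D, hDm, rfl⟩ := mem_wts.1 hu
              have := hDs D hDm
              exact ⟨by omega, (hD D hDm).1⟩
          · rw [Multiset.card_cons, card_wts, h1]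

end Pool.Agent.Helper54.Irr
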