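import Pool.Agent.Helper54.Irr.StarAux

/-!
The conclusions `FSolves` in the different situations (packet TStar of MP_033e98_co).
-/

set_option autoImplicit false

namespace Pool.Agent.Helper54.Irr
open Irr37 Irr87

/-- number of edges at the centre which belong to the forest `F` -/
lemma centre {p z n₀ : ℕ} {top : Bool} (hz : AdmZ p z top n₀) (htop : top = false → n₀ = 0)
    (a gw el il lo : ℕ) :
    (il + el + lo + gw + (if top then 1 else 0)) * p ≤ 
      (a + p * gw + p * el + (if top = true ∧ n₀ = 0 then p - z else 0)) + z + 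
        p * ((tops n₀).length + lo + il) := by
  rw [tops_length]
  have h1 := hz.1
  cases top with
  | false =>
    have hn := htop rfl
    subst hn
    simp
    nlinarith
  | true =>
    by_cases hn : n₀ = 0
    · subst hn
      simp
      have : (il + el + lo + gw + 1) * p = p * gw + p * el + p * (lo + il) + p := by ring
      rw [this]
      omega
    · simp [hn]
      nlinarith

lemma max_bound {O G p : ℕ} (h1 : O + 2 ≤ G) (h2 : 3 ≤ G) : (2 + max 1 O) * p ≤ G * p :=
  Nat.mul_le_mul_right _ (by omega)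

lemma sub_bound {O G p : ℕ} (h1 : O + 2 ≤ G) (h2 : 3 ≤ G) : 3 * p + (O - 1) * p ≤ G * p := by
  rw [← Nat.add_mul]
  exact Nat.mul_le_mul_right _ (by omega)

lemma pos_ns {n₀ : ℕ} {lo : List (ℕ × ℕ)} (hlo : ∀ e ∈ lo, 1 ≤ e.1) : 
    ∀ n ∈ tops n₀ ++ lo.map Prod.fst, 1 ≤ n := by
  intro n hn
  rw [List.mem_append] at hn
  rcases hn with hn | hn
  · exact mem_tops hn
  · obtain ⟨e, he, rfl⟩ := List.mem_map.1 hn
    exact hlo e he

/-- all legs open -/
lemma fs_open (hS0 : Star0) {p s z : ℕ} {top : Bool} {n₀ l : ℕ} {lo : List (ℕ × ℕ)} {g : RF}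
    (hp : 1 ≤ p) (hz : AdmZ p z top n₀) (htop : top = false → n₀ = 0) 
    (hlo : ∀ e ∈ lo, 1 ≤ e.1) (hne : tops n₀ ++ lo.map Prod.fst ≠ [])
    (hO : oddc (tops n₀ ++ lo.map Prod.fst) + 2 ≤ lo.length + g.width + (if top then 1 else 0))
    (hG : 3 ≤ lo.length + g.width + (if top then 1 else 0)) :
    FSolves p s z top n₀ l (app (legsF lo) g) (app (botsF lo) g) 0 := by
  intro V fill hIn hsize hcount hfill hnd
  simp only [app_size, app_leaves, legsF_size, legsF_leaves, botsF_size, botsF_leaves, 
    Multiset.card_zero] at hsize hcount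
  have hc := centre (p := p) (z := z) hz htop fill.sum g.width 0 0 lo.length
  have hb := max_bound (p := p) hO hG
  have hstar := hS0 p z (fill.sum + p * g.width + p * 0 + 
      (if top = true ∧ n₀ = 0 then p - z else 0)) V (tops n₀ ++ lo.map Prod.fst) hne (pos_ns hlo) hIn 
    (by
      rw [List.length_append, List.length_map]
      simp only [Nat.zero_add, Nat.add_zero] at hc ⊢
      exact hb.trans hc) 
    (by rw [List.sum_append, tops_sum]; omega)
  obtain ⟨x, W, Ds, h, w, h1, h2, h3, h4, h5, h6, h7⟩ := assemble hp (A := fill) (inc := []) 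
    (exc := []) (lo := lo) (g := g) (V := V) (We := 0) (Le := 0) (z := z) (top := top) (n₀ := n₀)
    (by simpa using PS.nil) (by simp) (by simp) hz htop (by simpa using hstar)
  refine ⟨fill, x, W, 0, Ds, h, w, by omega, ?_, by simp, h2, h3, h4, h5, h6, h7⟩
  simpa using h1

/-- one included leg -/
lemma fs_inc1 (hS1 : Star1) {p s z : ℕ} {top : Bool} {n₀ l r b : ℕ} {lo : List (ℕ × ℕ)} {g : RF}
    (hp : 1 ≤ p) (hz : AdmZ p z top n₀) (htop : top = false → n₀ = 0) 
    (hlo : ∀ e ∈ lo, 1 ≤ e.1) (hr : r % 2 = 1) {X : Multiset ℕ} (hX : Multiset.card X = b)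
    (h1 : p ≤ X.sum + s) (h2 : X.sum ≤ p + s)
    (hO : oddc (tops n₀ ++ lo.map Prod.fst) + 2 ≤ 
      1 + lo.length + g.width + (if top then 1 else 0))
    (hG : 3 ≤ 1 + lo.length + g.width + (if top then 1 else 0)) :
    FSolves p s z top n₀ l (app (legsF ((r, b) :: lo)) g) (app (botsF lo) g) X := by
  intro V fill hIn hsize hcount hfill hnd
  simp only [app_size, app_leaves, legsF_size, legsF_leaves, botsF_size, botsF_leaves, 
    List.map_cons, List.sum_cons, List.length_cons] at hsize hcount
  have hc := centre (p := p) (z := z) hz htop fill.sum g.width 0 1 lo.length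
  simp only [Nat.add_zero] at hc
  have hb := sub_bound (p := p) hO hG
  have hstar := hS1 p s z 0 (fill.sum + p * g.width + p * 0 + 
      (if top = true ∧ n₀ = 0 then p - z else 0)) V (tops n₀ ++ lo.map Prod.fst) (r + 1) X.sum 
    (pos_ns hlo) (by rw [Nat.even_iff]; omega) (by omega) h1 h2 (by omega) hIn 
    (by
      rw [List.length_append, List.length_map]
      simp only [Nat.add_zero]
      exact hb.trans hc) 
    (by rw [List.sum_append, tops_sum]; omega)
  obtain ⟨x, W, Ds, h, w, g1, g2, g3, g4, g5, g6, g7⟩ := assemble hp (A := fill) (inc := [(r, X)]) 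
    (exc := []) (lo := lo) (g := g) (V := V) (We := 0) (Le := 0) (z := z) (top := top) (n₀ := n₀)
    (by simpa using PS.nil) (by simp) (by simp) hz htop (by simpa using hstar)
  refine ⟨fill, x, W, X, Ds, h, w, by omega, ?_, add_comm _ _, g2, g3, g4, g5, g6, g7⟩
  simpa [hX] using g1

/-- one excluded leg -/
lemma fs_exc1 (hS0 : Star0) (hRE : RE) {p s z : ℕ} {top : Bool} {n₀ l r b : ℕ} 
    {lo : List (ℕ × ℕ)} {g : RF}
    (hp : 1 ≤ p) (hz : AdmZ p z top n₀) (htop : top = false → n₀ = 0) 
    (hlo : ∀ e ∈ lo, 1 ≤ e.1) (hr : 1 ≤ r) {X : Multiset ℕ} (hX : Multiset.card X ≤ b)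
    (h1 : 2 * p ≤ X.sum + s) (hne : tops n₀ ++ lo.map Prod.fst ≠ [])
    (hO : oddc (tops n₀ ++ lo.map Prod.fst) + 2 ≤ 
      1 + lo.length + g.width + (if top then 1 else 0))
    (hG : 3 ≤ 1 + lo.length + g.width + (if top then 1 else 0)) :
    FSolves p s z top n₀ l (app (legsF ((r, b) :: lo)) g) (app (botsF lo) g) X := by
  intro V fill hIn hsize hcount hfill hnd
  simp only [app_size, app_leaves, legsF_size, legsF_leaves, botsF_size, botsF_leaves, 
    List.map_cons, List.sum_cons, List.length_cons] at hsize hcount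
  obtain ⟨A, Y, hAY, hA, hY⟩ := msplit fill l (b - Multiset.card X) (by omega)
  obtain ⟨We, e1, e2, e3, e4⟩ := excl hRE (p := p) (r := r) (K := s) (V := V) (X := X + Y) hr 
    (by rw [Multiset.sum_add]; omega) (by omega)
  have hXY : Multiset.card (X + Y) = b := by rw [Multiset.card_add]; omega
  rw [hXY] at e1
  have hcard : (V ∪ We.toFinset).card ≤ V.card + (r + 1) := by
    refine (Finset.card_union_le _ _).trans ?_
    have := Multiset.toFinset_card_le We
    omega
  have hc := centre (p := p) (z := z) hz htop A.sum g.width 1 0 lo.length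
  simp only [Nat.add_zero, Nat.zero_add] at hc
  have hb := max_bound (p := p) hO hG
  have hstar := hS0 p z (A.sum + p * g.width + p * 1 + 
      (if top = true ∧ n₀ = 0 then p - z else 0)) (V ∪ We.toFinset) (tops n₀ ++ lo.map Prod.fst) 
      hne (pos_ns hlo) (In.mono hIn Finset.subset_union_left)
    (by
      rw [List.length_append, List.length_map]
      exact hb.trans hc) 
    (by rw [List.sum_append, tops_sum]; omega)
  have e1' : PS p (legsF [(r, b)]) (p * [(r, b)].length) We (X + Y) RF.nil := by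
    simpa [legsF_cons] using e1
  obtain ⟨x, W, Ds, h, w, g1, g2, g3, g4, g5, g6, g7⟩ := assemble hp (A := A) (inc := []) 
    (exc := [(r, b)]) (lo := lo) (g := g) (V := V) (We := We) (Le := X + Y) (z := z) (top := top) 
    (n₀ := n₀) e1' e2 e3 hz htop (by simpa using hstar)
  refine ⟨A, x, W, X + Y, Ds, h, w, hA, ?_, ?_, g2, g3, g4, g5, g6, g7⟩
  · simpa using g1
  · rw [← hAY]; abel

/-- one excluded leg, one included leg -/
lemma fs_exc_inc (hS1 : Star1) (hRE : RE) {p s K z : ℕ} {top : Bool} {n₀ l r b r' b' : ℕ} 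
    {lo : List (ℕ × ℕ)} {g : RF}
    (hp : 1 ≤ p) (hz : AdmZ p z top n₀) (htop : top = false → n₀ = 0) 
    (hlo : ∀ e ∈ lo, 1 ≤ e.1) (hr : 1 ≤ r) (hr' : r' % 2 = 1) {X X' : Multiset ℕ} 
    (hX : Multiset.card X ≤ b) (hX' : Multiset.card X' = b')
    (h1 : 2 * p ≤ X.sum + K) (h2 : p ≤ X'.sum + s) (h3 : X'.sum ≤ p + s)
    (hK : K ≤ s + 2 + (n₀ + (lo.map Prod.fst).sum))
    (hO : oddc (tops n₀ ++ lo.map Prod.fst) + 2 ≤ 
      2 + lo.length + g.width + (if top then 1 else 0))
    (hG : 3 ≤ 2 + lo.length + g.width + (if top then 1 else 0)) :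
    FSolves p s z top n₀ l (app (legsF ((r', b') :: (r, b) :: lo)) g) (app (botsF lo) g) 
      (X + X') := by
  intro V fill hIn hsize hcount hfill hnd
  simp only [app_size, app_leaves, legsF_size, legsF_leaves, botsF_size, botsF_leaves, 
    List.map_cons, List.sum_cons, List.length_cons, Multiset.card_add] at hsize hcount
  obtain ⟨A, Y, hAY, hA, hY⟩ := msplit fill l (b - Multiset.card X) (by omega)
  obtain ⟨We, e1, e2, e3, e4⟩ := excl hRE (p := p) (r := r) (K := K) (V := V) (X := X + Y) hr 
    (by rw [Multiset.sum_add]; omega) (by omega)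
  have hXY : Multiset.card (X + Y) = b := by rw [Multiset.card_add]; omega
  rw [hXY] at e1
  have hcard : (V ∪ We.toFinset).card ≤ V.card + (r + 1) := by
    refine (Finset.card_union_le _ _).trans ?_
    have := Multiset.toFinset_card_le We
    omega
  have hc := centre (p := p) (z := z) hz htop A.sum g.width 1 1 lo.length
  have hb := sub_bound (p := p) hO hG
  have e22 : (1 + 1 + lo.length + g.width + if top = true then 1 else 0) = 
      (2 + lo.length + g.width + if top = true then 1 else 0) := rfl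
  rw [e22] at hc
  have hstar := hS1 p s z 0 (A.sum + p * g.width + p * 1 + 
      (if top = true ∧ n₀ = 0 then p - z else 0)) (V ∪ We.toFinset) (tops n₀ ++ lo.map Prod.fst) 
      (r' + 1) X'.sum (pos_ns hlo) (by rw [Nat.even_iff]; omega) (by omega) h2 h3 (by omega)
      (In.mono hIn Finset.subset_union_left)
    (by
      rw [List.length_append, List.length_map, Nat.add_zero]
      exact hb.trans hc) 
    (by rw [List.sum_append, tops_sum]; omega)
  have e1' : PS p (legsF [(r, b)]) (p * [(r, b)].length) We (X + Y) RF.nil := by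
    simpa [legsF_cons] using e1
  obtain ⟨x, W, Ds, h, w, g1, g2, g3, g4, g5, g6, g7⟩ := assemble hp (A := A) (inc := [(r', X')]) 
    (exc := [(r, b)]) (lo := lo) (g := g) (V := V) (We := We) (Le := X + Y) (z := z) (top := top) 
    (n₀ := n₀) e1' e2 e3 hz htop (by simpa using hstar)
  refine ⟨A, x, W, X' + (X + Y), Ds, h, w, hA, ?_, ?_, g2, g3, g4, g5, g6, g7⟩
  · simpa [hX'] using g1
  · rw [← hAY]; abel

/-- two excluded legs -/
lemma fs_exc2 (hS0 : Star0) (hRE : RE) {p s K K' z : ℕ} {top : Bool} {n₀ l r b r' b' : ℕ} 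
    {lo : List (ℕ × ℕ)} {g : RF}
    (hp : 1 ≤ p) (hz : AdmZ p z top n₀) (htop : top = false → n₀ = 0) 
    (hlo : ∀ e ∈ lo, 1 ≤ e.1) (hr : 1 ≤ r) (hr' : 1 ≤ r') {X X' : Multiset ℕ} 
    (hX : Multiset.card X ≤ b) (hX' : Multiset.card X' ≤ b')
    (h1 : 2 * p ≤ X.sum + K) (h2 : 2 * p ≤ X'.sum + K') 
    (hK : K ≤ s + 2) (hK' : K' ≤ s + 4) (hne : 1 ≤ n₀ + (lo.map Prod.fst).sum)
    (hO : oddc (tops n₀ ++ lo.map Prod.fst) + 2 ≤ 
      2 + lo.length + g.width + (if top then 1 else 0))
    (hG : 3 ≤ 2 + lo.length + g.width + (if top then 1 else 0)) :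
    FSolves p s z top n₀ l (app (legsF ((r, b) :: (r', b') :: lo)) g) (app (botsF lo) g) 
      (X + X') := by
  intro V fill hIn hsize hcount hfill hnd
  simp only [app_size, app_leaves, legsF_size, legsF_leaves, botsF_size, botsF_leaves, 
    List.map_cons, List.sum_cons, List.length_cons, Multiset.card_add] at hsize hcount
  obtain ⟨A, Y1, hAY1, hA, hY1⟩ := msplit fill l 
    ((b - Multiset.card X) + (b' - Multiset.card X')) (by omega)
  obtain ⟨Y, Y', hYY, hY, hY'⟩ := msplit Y1 _ _ hY1
  obtain ⟨We', e1', e2', e3', e4'⟩ := excl hRE (p := p) (r := r') (K := K') (V := V) 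
    (X := X' + Y') hr' (by rw [Multiset.sum_add]; omega) (by omega)
  have hcard' : (V ∪ We'.toFinset).card ≤ V.card + (r' + 1) := by
    refine (Finset.card_union_le _ _).trans ?_
    have := Multiset.toFinset_card_le We'
    omega
  obtain ⟨We, e1, e2, e3, e4⟩ := excl hRE (p := p) (r := r) (K := K) (V := V ∪ We'.toFinset) 
    (X := X + Y) hr (by rw [Multiset.sum_add]; omega) (by omega)
  have hXY : Multiset.card (X + Y) = b := by rw [Multiset.card_add]; omega
  have hXY' : Multiset.card (X' + Y') = b' := by rw [Multiset.card_add]; omega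
  rw [hXY] at e1
  rw [hXY'] at e1'
  have hcard : (V ∪ (We + We').toFinset).card ≤ V.card + (r + 1) + (r' + 1) := by
    refine (Finset.card_union_le _ _).trans ?_
    have := Multiset.toFinset_card_le (We + We')
    rw [Multiset.card_add] at this
    omega
  have hc := centre (p := p) (z := z) hz htop A.sum g.width 2 0 lo.length
  have hb := max_bound (p := p) hO hG
  simp only [Nat.add_zero, Nat.zero_add] at hc
  have hstar := hS0 p z (A.sum + p * g.width + p * 2 + 
      (if top = true ∧ n₀ = 0 then p - z else 0)) (V ∪ (We + We').toFinset) 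
      (tops n₀ ++ lo.map Prod.fst) (by
        intro h
        have h2 : (tops n₀ ++ lo.map Prod.fst).sum = 0 := by rw [h]; rfl
        rw [List.sum_append, tops_sum] at h2
        omega) (pos_ns hlo) (In.mono hIn Finset.subset_union_left)
    (by
      rw [List.length_append, List.length_map]
      exact hb.trans hc) 
    (by rw [List.sum_append, tops_sum]; omega)
  have f1 : PS p (legsF [(r, b), (r', b')]) (p * [(r, b), (r', b')].length) (We + We') 
      ((X + Y) + (X' + Y')) RF.nil := by
    have := e1.app e1'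
    have e : p * [(r, b), (r', b')].length = p + p := by
      simp; ring
    rw [e]
    simpa [legsF_cons] using this
  obtain ⟨x, W, Ds, h, w, g1, g2, g3, g4, g5, g6, g7⟩ := assemble hp (A := A) (inc := []) 
    (exc := [(r, b), (r', b')]) (lo := lo) (g := g) (V := V) (We := We + We') 
    (Le := (X + Y) + (X' + Y')) (z := z) (top := top) 
    (n₀ := n₀) f1 (by
      rw [Multiset.nodup_add]
      refine ⟨e2, e2', ?_⟩
      rw [Multiset.disjoint_left]
      intro a ha hb
      exact (e3 a ha).2 (Finset.mem_union_right _ (Multiset.mem_toFinset.2 hb))) (by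
      intro u hu
      rw [Multiset.mem_add] at hu
      rcases hu with hu | hu
      · exact ⟨(e3 u hu).1, fun h => (e3 u hu).2 (Finset.mem_union_left _ h)⟩
      · exact e3' u hu) hz htop (by simpa using hstar)
  refine ⟨A, x, W, (X + Y) + (X' + Y'), Ds, h, w, hA, ?_, ?_, g2, g3, g4, g5, g6, g7⟩
  · simpa using g1
  · rw [← hAY1, ← hYY]; abel

/-- two included legs, the second with exact sum `p` -/
lemma fs_inc2 (hS1 : Star1) {p s z : ℕ} {top : Bool} {n₀ l r b r' b' : ℕ} 
    {lo : List (ℕ × ℕ)} {g : RF}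
    (hp : 1 ≤ p) (hz : AdmZ p z top n₀) (htop : top = false → n₀ = 0) 
    (hlo : ∀ e ∈ lo, 1 ≤ e.1) (hr : r % 2 = 1) (hr' : r' % 2 = 1) {X X' : Multiset ℕ} 
    (hX : Multiset.card X = b) (hX' : Multiset.card X' = b')
    (h1 : p ≤ X.sum + s) (h2 : X.sum ≤ p + s) (h3 : X'.sum = p)
    (hO : oddc (tops n₀ ++ lo.map Prod.fst) + 2 ≤ 
      2 + lo.length + g.width + (if top then 1 else 0))
    (hG : 3 ≤ 2 + lo.length + g.width + (if top then 1 else 0)) :
    FSolves p s z top n₀ l (app (legsF ((r, b) :: (r', b') :: lo)) g) (app (botsF lo) g) 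
      (X + X') := by
  intro V fill hIn hsize hcount hfill hnd
  simp only [app_size, app_leaves, legsF_size, legsF_leaves, botsF_size, botsF_leaves, 
    List.map_cons, List.sum_cons, List.length_cons, Multiset.card_add] at hsize hcount
  have hc := centre (p := p) (z := z) hz htop fill.sum g.width 0 2 lo.length
  simp only [Nat.add_zero] at hc
  have hodd : oddc ((r' + 1) :: (tops n₀ ++ lo.map Prod.fst)) = 
      oddc (tops n₀ ++ lo.map Prod.fst) := by
    unfold oddc
    rw [List.filter_cons_of_neg]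
    simp
    omega
  have hb := sub_bound (p := p) hO hG
  have hstar := hS1 p s z 0 (fill.sum + p * g.width + p * 0 + 
      (if top = true ∧ n₀ = 0 then p - z else 0)) V 
      ((r' + 1) :: (tops n₀ ++ lo.map Prod.fst)) (r + 1) X.sum 
    (by
      intro m hm
      rcases List.mem_cons.1 hm with rfl | hm
      · omega
      · exact pos_ns hlo m hm) (by rw [Nat.even_iff]; omega) (by omega) h1 h2 (by omega) hIn 
    (by
      rw [hodd, List.length_cons, List.length_append, List.length_map]
      simp only [Nat.add_zero]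
      exact hb.trans hc) 
    (by rw [List.sum_cons, List.sum_append, tops_sum]; omega)
  obtain ⟨x, W, Ds, h, w, g1, g2, g3, g4, g5, g6, g7⟩ := assemble hp (A := fill) 
    (inc := [(r, X), (r', X')]) (exc := []) (lo := lo) (g := g) (V := V) (We := 0) (Le := 0) 
    (z := z) (top := top) (n₀ := n₀)
    (by simpa using PS.nil) (by simp) (by simp) hz htop (by
      have e : List.map (fun e : ℕ × Multiset ℕ => (e.1 + 1, e.2.sum)) [(r, X), (r', X')] ++ 
          opn p (tops n₀ ++ List.map Prod.fst lo) = 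
          (r + 1, X.sum) :: opn p ((r' + 1) :: (tops n₀ ++ lo.map Prod.fst)) := by
        simp [opn, h3]
      rw [e]
      simpa using hstar)
  refine ⟨fill, x, W, X + X', Ds, h, w, by omega, ?_, add_comm _ _, g2, g3, g4, g5, g6, g7⟩
  simpa [hX, hX'] using g1

/-- two included thin legs -/
lemma fs_tt (hS2 : Star2) {p s z : ℕ} {top : Bool} {n₀ l r b r' b' : ℕ} 
    {lo : List (ℕ × ℕ)} {g : RF}
    (hp : 1 ≤ p) (hz : AdmZ p z top n₀) (htop : top = false → n₀ = 0) 
    (hlo : ∀ e ∈ lo, 1 ≤ e.1) (hr : r % 2 = 1) (hr' : r' % 2 = 1) {X X' : Multiset ℕ} 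
    (hX : Multiset.card X = b) (hX' : Multiset.card X' = b')
    (h1 : p ≤ X.sum + s) (h2 : X.sum ≤ p) (h3 : p ≤ X'.sum + s + 1) (h4 : X'.sum ≤ p)
    (hz0 : z = 0) (hO1 : 1 ≤ oddc (tops n₀ ++ lo.map Prod.fst))
    (hO : oddc (tops n₀ ++ lo.map Prod.fst) + 2 ≤ 
      2 + lo.length + g.width + (if top then 1 else 0))
    (hG : 3 ≤ 2 + lo.length + g.width + (if top then 1 else 0)) :
    FSolves p s z top n₀ l (app (legsF ((r, b) :: (r', b') :: lo)) g) (app (botsF lo) g) 
      (X + X') := by
  intro V fill hIn hsize hcount hfill hnd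
  simp only [app_size, app_leaves, legsF_size, legsF_leaves, botsF_size, botsF_leaves, 
    List.map_cons, List.sum_cons, List.length_cons, Multiset.card_add] at hsize hcount
  have hc := centre (p := p) (z := z) hz htop fill.sum g.width 0 2 lo.length
  simp only [Nat.add_zero] at hc
  have hb := sub_bound (p := p) hO hG
  have hstar := hS2 p s (fill.sum + p * g.width + p * 0 + 
      (if top = true ∧ n₀ = 0 then p - z else 0)) V 
      (tops n₀ ++ lo.map Prod.fst) (r + 1) X.sum (r' + 1) X'.sum (pos_ns hlo) hO1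
      (by rw [Nat.even_iff]; omega) (by omega) (by rw [Nat.even_iff]; omega) (by omega) 
      h2 h1 h4 h3
    (by
      rw [List.length_append, List.length_map]
      rw [hz0] at hc ⊢
      simp only [Nat.add_zero] at hc ⊢
      exact hb.trans hc) 
    (by rw [List.sum_append, tops_sum]; omega)
  obtain ⟨x, W, Ds, h, w, g1, g2, g3, g4, g5, g6, g7⟩ := assemble hp (A := fill) 
    (inc := [(r, X), (r', X')]) (exc := []) (lo := lo) (g := g) (V := V) (We := 0) (Le := 0) 
    (z := z) (top := top) (n₀ := n₀)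
    (by simpa using PS.nil) (by simp) (by simp) hz htop (by simpa using hstar)
  refine ⟨fill, x, W, X + X', Ds, h, w, by omega, ?_, add_comm _ _, g2, g3, g4, g5, g6, g7⟩
  simpa [hX, hX'] using g1

end Pool.Agent.Helper54.Irr
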