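import Pool.Agent.Helper54.Irr.StarFS

/-!
Packet TStar of MP_033e98_co.
-/

set_option autoImplicit false

namespace Pool.Agent.Helper54.Irr
open Irr37 Irr87

lemma oddc_append (a b : List ℕ) : oddc (a ++ b) = oddc a + oddc b := by
  unfold oddc; rw [List.filter_append, List.length_append]

lemma oddc_cons_odd {n : ℕ} (h : n % 2 = 1) (l : List ℕ) : oddc (n :: l) = oddc l + 1 := by
  unfold oddc
  rw [List.filter_cons_of_pos (by simpa using h)]
  rfl

lemma oddc_le (a : List ℕ) : oddc a ≤ a.length := List.length_filter_le _ _

lemma oddc_le_sum (a : List ℕ) : oddc a ≤ a.sum := by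
  induction a with
  | nil => simp [oddc]
  | cons n a ih =>
    unfold oddc at ih ⊢
    by_cases h : n % 2 = 1
    · rw [List.filter_cons_of_pos (by simpa using h), List.sum_cons, List.length_cons]
      omega
    · rw [List.filter_cons_of_neg (by simpa using h), List.sum_cons]
      omega

lemma oddc_tops (n : ℕ) : oddc (tops n) ≤ 1 := by
  refine (oddc_le _).trans ?_
  rw [tops_length]
  split <;> omega

lemma oddc_perm {a b : List ℕ} (h : a.Perm b) : oddc a = oddc b := by
  unfold oddc
  exact (h.filter _).length_eq

/-- an odd leg -/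
lemma exists_odd {n₀ : ℕ} {ls : List (ℕ × ℕ)} (h : 2 ≤ oddc (tops n₀ ++ ls.map Prod.fst)) :
    ∃ (r b : ℕ) (lo : List (ℕ × ℕ)), r % 2 = 1 ∧ ((r, b) :: lo).Perm ls := by
  rw [oddc_append] at h
  have h1 := oddc_tops n₀
  have h2 : 0 < oddc (ls.map Prod.fst) := by omega
  unfold oddc at h2
  obtain ⟨r, hr⟩ := List.exists_mem_of_length_pos h2
  rw [List.mem_filter] at hr
  obtain ⟨⟨r', b⟩, he, rfl⟩ := List.mem_map.1 hr.1
  refine ⟨r', b, ls.erase (r', b), by simpa using hr.2, (List.perm_cons_erase he).symm⟩

/-- the data of a star are invariant under permutations of the legs -/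
lemma StarRes.perm {p s : ℕ} {R : Finset ℕ} {top : Bool} {n₀ l : ℕ} {ls ls₁ : List (ℕ × ℕ)} 
    {g : RF} (hperm : ls₁.Perm ls) (h : StarRes p s R top n₀ l ls₁ g) : 
    StarRes p s R top n₀ l ls g := by
  obtain ⟨ls', ls'', res, h1, h2, h3, h4, h5, h6, h7⟩ := h
  have e1 : (ls₁.map Prod.fst).sum = (ls.map Prod.fst).sum := (hperm.map _).sum_eq
  have e2 : (ls₁.map Prod.snd).sum = (ls.map Prod.snd).sum := (hperm.map _).sum_eq
  have e3 : ls₁.length = ls.length := hperm.length_eq
  rw [e1, e3] at h4 h6
  rw [e2] at h5
  exact ⟨ls', ls'', res, h1.trans hperm, h2, h3, h4, h5, h6, h7⟩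

lemma StarSit.perm {p s : ℕ} {R : Finset ℕ} {top : Bool} {n₀ l : ℕ} {ls ls₁ : List (ℕ × ℕ)} 
    {g : RF} (hperm : ls₁.Perm ls) (h : StarSit p s R top n₀ l ls g) : 
    StarSit p s R top n₀ l ls₁ g := by
  have e1 : (ls₁.map Prod.fst).sum = (ls.map Prod.fst).sum := (hperm.map _).sum_eq
  have e2 : (ls₁.map Prod.snd).sum = (ls.map Prod.snd).sum := (hperm.map _).sum_eq
  have e3 : ls₁.length = ls.length := hperm.length_eq
  refine ⟨h.topz, fun e he => h.pos e (hperm.mem_iff.1 he), ?_, ?_, ?_, ?_⟩
  · rcases h.ne with h1 | h1
    · left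
      intro h2
      subst h2
      have := hperm.symm
      rw [List.perm_nil] at this
      exact h1 this
    · exact Or.inr h1
  · rw [e3]; exact h.deg
  · rw [e2]; exact h.leaves
  · rw [e1, e3]; exact h.size

lemma sum_id_val (X : Finset ℕ) : X.sum id = X.val.sum := (Finset.sum_val X).symm

/-- two odd legs, everything else odd -/
lemma two_legs (hS0 : Star0) (hS1 : Star1) (hS2 : Star2) (hRE : RE) {p s : ℕ} {R : Finset ℕ} 
    {top : Bool} {n₀ l r₁ b₁ r₂ b₂ : ℕ} {lo : List (ℕ × ℕ)} {g : RF} (hL : Lab p s R) 
    (hR : R ⊆ Finset.Icc 1 p) 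
    (hs : StarSit p s R top n₀ l ((r₁, b₁) :: (r₂, b₂) :: lo) g) 
    (ho1 : r₁ % 2 = 1) (ho2 : r₂ % 2 = 1) (hb : b₂ ≤ b₁)
    (hO : oddc (tops n₀ ++ lo.map Prod.fst) + 2 = 
      2 + lo.length + g.width + (if top then 1 else 0)) :
    StarRes p s R top n₀ l ((r₁, b₁) :: (r₂, b₂) :: lo) g := by
  have hpos1 := hs.pos (r₁, b₁) (by simp)
  have hpos2 := hs.pos (r₂, b₂) (by simp)
  have hlo : ∀ e ∈ lo, 1 ≤ e.1 := fun e he => (hs.pos e (by simp [he])).1
  have hdeg := hs.deg
  have hleaves := hs.leaves
  have hsize := hs.size
  simp only [List.map_cons, List.sum_cons, List.length_cons] at hdeg hleaves hsize hpos1 hpos2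
  have hG : 3 ≤ 2 + lo.length + g.width + (if top then 1 else 0) := by omega
  have hO1 : 1 ≤ oddc (tops n₀ ++ lo.map Prod.fst) := by omega
  have hO' : oddc (tops n₀ ++ lo.map Prod.fst) + 2 ≤ 
      2 + lo.length + g.width + (if top then 1 else 0) := hO.le
  have hsum1 : 1 ≤ n₀ + (lo.map Prod.fst).sum := by
    have := oddc_le_sum (tops n₀ ++ lo.map Prod.fst)
    rw [List.sum_append, tops_sum] at this
    omega
  have hlen := oddc_le (tops n₀ ++ lo.map Prod.fst)
  rw [List.length_append, List.length_map, tops_length] at hlen
  have hp : 1 ≤ p := by omega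
  have hg : g = RF.nil ∧ (top = true → n₀ ≠ 0) := by
    have hgw : g.width = 0 ∧ (top = true → n₀ ≠ 0) := by
      cases top with
      | false =>
        have := hs.topz rfl
        subst this
        simp at hlen hO ⊢
        omega
      | true =>
        simp at hlen hO ⊢
        split at hlen <;> omega
    refine ⟨?_, hgw.2⟩
    cases g with
    | nil => rfl
    | cons _ _ _ => simp [RF.width] at hgw
  have hz0 : ∀ z, AdmZ p z top n₀ → z = 0 := by
    intro z hz
    rcases hz.2 with h | ⟨h1, h2⟩
    · exact h
    · exact absurd h2 (hg.2 h1)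
  have hgn : g ≠ RF.nil → False := fun h => h hg.1
  have hle : ∀ M ∈ R, M ≤ p := fun M hM => (Finset.mem_Icc.1 (hR hM)).2
  rcases Nat.lt_or_ge b₁ 3 with hb1 | hb1
  · rcases Nat.lt_or_ge b₁ 2 with hb1' | hb1'
    · -- TT
      have e1 : b₁ = 1 := by omega
      have e2 : b₂ = 1 := by omega
      subst e1 e2
      obtain ⟨M, hM, M', hM', hne, h1, h2⟩ := hL.TT (by omega)
      refine ⟨(r₁, 1) :: (r₂, 1) :: lo, lo, {M, M'}, List.Perm.refl _, 
        (List.sublist_cons_self _ _).trans (List.sublist_cons_self _ _), ?_, ?_, ?_, 
        fun h => (hgn h).elim, ?_⟩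
      · intro x hx
        simp at hx
        rcases hx with rfl | rfl
        · exact hM
        · exact hM'
      · rw [Finset.card_pair hne]
        simp only [List.map_cons, List.sum_cons, List.length_cons]
        omega
      · rw [Finset.card_pair hne]
        simp only [List.map_cons, List.sum_cons]
        omega
      · intro z hz
        have e : ({M, M'} : Finset ℕ).val = ({M} : Multiset ℕ) + {M'} := by
          rw [Finset.insert_val, Multiset.ndinsert_of_notMem (by simpa using hne)]
          rfl
        rw [e]
        exact fs_tt hS2 hp hz hs.topz hlo ho1 ho2 (by simp) (by simp) (by simpa using h1) 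
          (by simpa using hle M hM) (by simpa using h2) (by simpa using hle M' hM') (hz0 z hz) 
          hO1 hO' hG
    · have e1 : b₁ = 2 := by omega
      subst e1
      rcases Nat.lt_or_ge b₂ 2 with hb2 | hb2
      · -- FT
        have e2 : b₂ = 1 := by omega
        subst e2
        obtain ⟨X, hX, hXc, hXs, M, hM, hMX, h1⟩ := hL.FT (by omega)
        refine ⟨(r₂, 1) :: (r₁, 2) :: lo, lo, insert M X, List.Perm.swap _ _ _, 
          (List.sublist_cons_self _ _).trans (List.sublist_cons_self _ _), ?_, ?_, ?_, 
          fun h => (hgn h).elim, ?_⟩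
        · exact Finset.insert_subset hM hX
        · rw [Finset.card_insert_of_notMem hMX, hXc]
          simp only [List.map_cons, List.sum_cons, List.length_cons]
          omega
        · rw [Finset.card_insert_of_notMem hMX, hXc]
          simp only [List.map_cons, List.sum_cons]
          omega
        · intro z hz
          have e : (insert M X).val = ({M} : Multiset ℕ) + X.val := by
            rw [Finset.insert_val, Multiset.ndinsert_of_notMem (by simpa using hMX)]
            rfl
          rw [e]
          refine fs_inc2 hS1 hp hz hs.topz hlo ho2 ho1 (by simp) (by simpa using hXc) 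
            (by simpa using h1) ?_ (by rw [← sum_id_val]; exact hXs) hO' hG
          have := hle M hM
          simp only [Multiset.sum_singleton]
          omega
      · -- FF
        have e2 : b₂ = 2 := by omega
        subst e2
        obtain ⟨X, hX, X', hX', hd, hXc, hXs, hXc', h1, h2⟩ := hL.FF (by omega) (by omega)
        refine ⟨(r₂, 2) :: (r₁, 2) :: lo, lo, X' ∪ X, List.Perm.swap _ _ _, 
          (List.sublist_cons_self _ _).trans (List.sublist_cons_self _ _), ?_, ?_, ?_, 
          fun h => (hgn h).elim, ?_⟩
        · exact Finset.union_subset hX' hX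
        · rw [Finset.card_union_of_disjoint hd.symm, hXc, hXc']
          simp only [List.map_cons, List.sum_cons, List.length_cons]
          omega
        · rw [Finset.card_union_of_disjoint hd.symm, hXc, hXc']
          simp only [List.map_cons, List.sum_cons]
          omega
        · intro z hz
          have e : (X' ∪ X).val = X'.val + X.val := by
            rw [← Finset.disjUnion_eq_union _ _ hd.symm]
            rfl
          rw [e]
          exact fs_inc2 hS1 hp hz hs.topz hlo ho2 ho1 (by simpa using hXc') (by simpa using hXc) 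
            (by rw [← sum_id_val]; exact h1) (by rw [← sum_id_val]; exact h2)
            (by rw [← sum_id_val]; exact hXs) hO' hG
  · rcases Nat.lt_or_ge b₂ 3 with hb2 | hb2
    · rcases Nat.lt_or_ge b₂ 2 with hb2' | hb2'
      · -- TO
        have e2 : b₂ = 1 := by omega
        subst e2
        obtain ⟨M, hM, h1, X, hX, hMX, hXc, h2⟩ := hL.TO (by omega)
        refine ⟨(r₂, 1) :: (r₁, b₁) :: lo, lo, insert M X, List.Perm.swap _ _ _, 
          (List.sublist_cons_self _ _).trans (List.sublist_cons_self _ _), ?_, ?_, ?_, 
          fun h => (hgn h).elim, ?_⟩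
        · exact Finset.insert_subset hM hX
        · rw [Finset.card_insert_of_notMem hMX, hXc]
          simp only [List.map_cons, List.sum_cons, List.length_cons]
          omega
        · rw [Finset.card_insert_of_notMem hMX, hXc]
          simp only [List.map_cons, List.sum_cons]
          omega
        · intro z hz
          have e : (insert M X).val = X.val + ({M} : Multiset ℕ) := by
            rw [Finset.insert_val, Multiset.ndinsert_of_notMem (by simpa using hMX), add_comm]
            rfl
          rw [e]
          refine fs_exc_inc hS1 hRE (K := s + 2) hp hz hs.topz hlo hpos1.1 ho2 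
            (by simp only [Finset.card_val]; omega) (by simp) (by rw [← sum_id_val]; omega) 
            (by simpa using h1) ?_ (by omega) hO' hG
          have := hle M hM
          simp only [Multiset.sum_singleton]
          omega
      · -- FO
        have e2 : b₂ = 2 := by omega
        subst e2
        obtain ⟨X, hX, X', hX', hd, hXc, hXs, hXc', h1⟩ := hL.FO (by omega)
        refine ⟨(r₂, 2) :: (r₁, b₁) :: lo, lo, X' ∪ X, List.Perm.swap _ _ _, 
          (List.sublist_cons_self _ _).trans (List.sublist_cons_self _ _), ?_, ?_, ?_, 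
          fun h => (hgn h).elim, ?_⟩
        · exact Finset.union_subset hX' hX
        · rw [Finset.card_union_of_disjoint hd.symm, hXc, hXc']
          simp only [List.map_cons, List.sum_cons, List.length_cons]
          omega
        · rw [Finset.card_union_of_disjoint hd.symm, hXc, hXc']
          simp only [List.map_cons, List.sum_cons]
          omega
        · intro z hz
          have e : (X' ∪ X).val = X'.val + X.val := by
            rw [← Finset.disjUnion_eq_union _ _ hd.symm]
            rfl
          rw [e]
          exact fs_exc_inc hS1 hRE (K := s + 2) hp hz hs.topz hlo hpos1.1 ho2 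
            (by simp only [Finset.card_val]; omega) (by simpa using hXc) 
            (by rw [← sum_id_val]; omega) (by rw [← sum_id_val, hXs]; omega) 
            (by rw [← sum_id_val, hXs]; omega) (by omega) hO' hG
    · -- OO
      obtain ⟨X, hX, X', hX', hd, hXc, h1, hXc', h2⟩ := hL.OO (by omega)
      refine ⟨(r₁, b₁) :: (r₂, b₂) :: lo, lo, X ∪ X', List.Perm.refl _, 
        (List.sublist_cons_self _ _).trans (List.sublist_cons_self _ _), ?_, ?_, ?_, 
        fun h => (hgn h).elim, ?_⟩
      · exact Finset.union_subset hX hX'
      · rw [Finset.card_union_of_disjoint hd, hXc, hXc']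
        simp only [List.map_cons, List.sum_cons, List.length_cons]
        omega
      · rw [Finset.card_union_of_disjoint hd, hXc, hXc']
        simp only [List.map_cons, List.sum_cons]
        omega
      · intro z hz
        have e : (X ∪ X').val = X.val + X'.val := by
          rw [← Finset.disjUnion_eq_union _ _ hd]
          rfl
        rw [e]
        exact fs_exc2 hS0 hRE (K := s + 2) (K' := s + 4) hp hz hs.topz hlo hpos1.1 hpos2.1 
          (by simp only [Finset.card_val]; omega) (by simp only [Finset.card_val]; omega) 
          (by rw [← sum_id_val]; omega) (by rw [← sum_id_val]; omega) 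
          (by omega) (by omega) hsum1 hO' hG

/-- one odd leg -/
lemma one_leg (hS0 : Star0) (hS1 : Star1) (hRE : RE) {p s : ℕ} {R : Finset ℕ} 
    {top : Bool} {n₀ l r b : ℕ} {lo : List (ℕ × ℕ)} {g : RF} (hL : Lab p s R) 
    (hR : R ⊆ Finset.Icc 1 p) 
    (hs : StarSit p s R top n₀ l ((r, b) :: lo) g) 
    (ho1 : r % 2 = 1)
    (hO : oddc (tops n₀ ++ lo.map Prod.fst) + 2 = 
      1 + lo.length + g.width + (if top then 1 else 0)) :
    StarRes p s R top n₀ l ((r, b) :: lo) g := by
  have hpos1 := hs.pos (r, b) (by simp)
  have hlo : ∀ e ∈ lo, 1 ≤ e.1 := fun e he => (hs.pos e (by simp [he])).1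
  have hdeg := hs.deg
  have hleaves := hs.leaves
  have hsize := hs.size
  simp only [List.map_cons, List.sum_cons, List.length_cons] at hdeg hleaves hsize hpos1
  have hG : 3 ≤ 1 + lo.length + g.width + (if top then 1 else 0) := by omega
  have hO1 : 1 ≤ oddc (tops n₀ ++ lo.map Prod.fst) := by omega
  have hO' : oddc (tops n₀ ++ lo.map Prod.fst) + 2 ≤ 
      1 + lo.length + g.width + (if top then 1 else 0) := hO.le
  have hsum1 : 1 ≤ n₀ + (lo.map Prod.fst).sum := by
    have := oddc_le_sum (tops n₀ ++ lo.map Prod.fst)
    rw [List.sum_append, tops_sum] at this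
    omega
  have hne : tops n₀ ++ lo.map Prod.fst ≠ [] := by
    intro h
    have h2 : (tops n₀ ++ lo.map Prod.fst).sum = 0 := by rw [h]; rfl
    rw [List.sum_append, tops_sum] at h2
    omega
  have hp : 1 ≤ p := by omega
  have hle : ∀ M ∈ R, M ≤ p := fun M hM => (Finset.mem_Icc.1 (hR hM)).2
  rcases Nat.lt_or_ge b 3 with hb1 | hb1
  · rcases Nat.lt_or_ge b 2 with hb1' | hb1'
    · -- T
      have e1 : b = 1 := by omega
      subst e1
      obtain ⟨M, hM, h1⟩ := hL.T (by omega)
      refine ⟨(r, 1) :: lo, lo, {M}, List.Perm.refl _, 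
        List.sublist_cons_self _ _, by simpa using hM, ?_, ?_, ?_, ?_⟩
      · simp only [List.map_cons, List.sum_cons, List.length_cons, Finset.card_singleton]
        omega
      · simp only [List.map_cons, List.sum_cons, Finset.card_singleton]
        omega
      · intro _
        simp only [List.map_cons, List.sum_cons, List.length_cons, Finset.card_singleton]
        omega
      · intro z hz
        refine fs_inc1 hS1 hp hz hs.topz hlo ho1 (by simp) (by simpa using h1) ?_ hO' hG
        have := hle M hM
        simp only [Finset.singleton_val, Multiset.sum_singleton]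
        omega
    · -- F
      have e1 : b = 2 := by omega
      subst e1
      obtain ⟨X, hX, hXc, hXs⟩ := hL.F (by omega)
      refine ⟨(r, 2) :: lo, lo, X, List.Perm.refl _, 
        List.sublist_cons_self _ _, hX, ?_, ?_, ?_, ?_⟩
      · simp only [List.map_cons, List.sum_cons, List.length_cons]
        omega
      · simp only [List.map_cons, List.sum_cons]
        omega
      · intro _
        simp only [List.map_cons, List.sum_cons, List.length_cons]
        omega
      · intro z hz
        exact fs_inc1 hS1 hp hz hs.topz hlo ho1 (by simpa using hXc) 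
          (by rw [← sum_id_val, hXs]; omega) (by rw [← sum_id_val, hXs]; omega) hO' hG
  · -- O
    obtain ⟨X, hX, hXc, h1⟩ := hL.O (by omega)
    refine ⟨(r, b) :: lo, lo, X, List.Perm.refl _, 
      List.sublist_cons_self _ _, hX, ?_, ?_, ?_, ?_⟩
    · simp only [List.map_cons, List.sum_cons, List.length_cons]
      omega
    · simp only [List.map_cons, List.sum_cons]
      omega
    · intro _
      simp only [List.map_cons, List.sum_cons, List.length_cons]
      omega
    · intro z hz
      exact fs_exc1 hS0 hRE hp hz hs.topz hlo hpos1.1 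
        (by simp only [Finset.card_val]; omega) (by rw [← sum_id_val]; omega) hne hO' hG

/-- T10: stars, small regime -/
theorem tStar (hS0 : Star0) (hS1 : Star1) (hS2 : Star2) (hRE : RE) : TStar := by
  intro p s R top n₀ l ls g hL hR hs
  have hlo : ∀ e ∈ ls, 1 ≤ e.1 := fun e he => (hs.pos e he).1
  have hdeg := hs.deg
  have hsize := hs.size
  have hp : 1 ≤ p := by
    rcases hs.ne with h1 | h1
    · have := List.length_pos_iff.2 h1
      omega
    · omega
  have hlen := oddc_le (tops n₀ ++ ls.map Prod.fst)
  rw [List.length_append, List.length_map, tops_length] at hlen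
  have hlen2 : oddc (tops n₀ ++ ls.map Prod.fst) ≤ 
      ls.length + g.width + (if top then 1 else 0) := by
    cases top with
    | false =>
      have := hs.topz rfl
      subst this
      simp at hlen ⊢
      omega
    | true =>
      simp at hlen ⊢
      split at hlen <;> omega
  rcases Nat.lt_or_ge (oddc (tops n₀ ++ ls.map Prod.fst) + 1) 
    (ls.length + g.width + (if top then 1 else 0)) with hc | hc
  · -- (c0)
    refine ⟨ls, ls, ∅, List.Perm.refl _, List.Sublist.refl _, Finset.empty_subset _, ?_, ?_, ?_, ?_⟩
    · rw [Finset.card_empty]; omega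
    · rw [Finset.card_empty]; omega
    · intro _
      rw [Finset.card_empty]; omega
    · intro z hz
      refine fs_open hS0 hp hz hs.topz hlo ?_ (by omega) hdeg
      intro h
      rw [List.append_eq_nil_iff, List.map_eq_nil_iff] at h
      rcases hs.ne with h1 | h1
      · exact h1 h.2
      · rw [tops_pos h1] at h
        simp at h
  · obtain ⟨r, b, lo, hr, hperm⟩ := exists_odd (n₀ := n₀) (ls := ls) (by omega)
    refine StarRes.perm hperm ?_
    have hs' := StarSit.perm hperm hs
    have hl : ls.length = lo.length + 1 := by rw [← hperm.length_eq]; rfl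
    have hod : oddc (tops n₀ ++ ls.map Prod.fst) = oddc (tops n₀ ++ lo.map Prod.fst) + 1 := by
      rw [oddc_append, oddc_append, ← oddc_perm (hperm.map Prod.fst), List.map_cons, 
        oddc_cons_odd hr]
      omega
    rcases Nat.lt_or_ge (oddc (tops n₀ ++ ls.map Prod.fst)) 
      (ls.length + g.width + (if top then 1 else 0)) with hc' | hc'
    · exact one_leg hS0 hS1 hRE hL hR hs' hr (by omega)
    · obtain ⟨r', b', lo', hr', hperm'⟩ := exists_odd (n₀ := n₀) (ls := lo) (by omega)
      have hl' : lo.length = lo'.length + 1 := by rw [← hperm'.length_eq]; rfl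
      have hod' : oddc (tops n₀ ++ lo.map Prod.fst) = 
          oddc (tops n₀ ++ lo'.map Prod.fst) + 1 := by
        rw [oddc_append, oddc_append, ← oddc_perm (hperm'.map Prod.fst), List.map_cons, 
          oddc_cons_odd hr']
        omega
      rcases le_total b' b with hbb | hbb
      · have hq : ((r, b) :: (r', b') :: lo').Perm ((r, b) :: lo) := hperm'.cons _
        refine StarRes.perm hq ?_
        exact two_legs hS0 hS1 hS2 hRE hL hR (StarSit.perm hq hs') hr hr' hbb (by omega)
      · have hq : ((r', b') :: (r, b) :: lo').Perm ((r, b) :: lo) := 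
          (List.Perm.swap _ _ _).trans (hperm'.cons _)
        refine StarRes.perm hq ?_
        exact two_legs hS0 hS1 hS2 hRE hL hR (StarSit.perm hq hs') hr' hr hbb (by omega)

end Pool.Agent.Helper54.Irr
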